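import Mathlib
import Pool.Agent.H27.Heavy

set_option autoImplicit false

namespace Pool.Agent.Results.MP_8c4df5_an.StarCycle

open Pool.Agent.H27.Heavy

/-- The class `F_{μ,L}(ℝ)`: differentiable, `μ`-strongly convex, with `L`-Lipschitz derivative. -/
def InClass (μ L : ℝ) (f : ℝ → ℝ) : Prop :=
  Differentiable ℝ f ∧ StrongConvexOn Set.univ μ f ∧ ∀ x y, |deriv f x - deriv f y| ≤ L * |x - y|

/-- A cycle of length `K` of heavy-ball on `f`, written as the `K`-periodic sequence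
`t ↦ x_(t mod K)`: not constant, and obeying the heavy-ball recursion. -/
def IsCycle (γ β : ℝ) (f : ℝ → ℝ) (K : ℕ) (x : ℕ → ℝ) : Prop :=
  Function.Periodic x K ∧ (∃ i j, x i ≠ x j) ∧
    ∀ t, x (t + 2) = x (t + 1) - γ * deriv f (x (t + 1)) + β * (x (t + 1) - x t)

/-- The ranking permutation. -/
def rank (K j : ℕ) : ℕ := if j = 0 then 0 else if j ≤ K / 2 then 2 * j - 1 else 2 * (K - j)

/-- The cycle is ordered according to the ranking permutation. -/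
def Ordered (K : ℕ) (x : ℕ → ℝ) : Prop := ∀ i < K, ∀ j < K, rank K i < rank K j → x i ≤ x j

theorem result : ∃ μ L γ β : ℝ, 0 < μ ∧ μ < L ∧ 0 < β ∧ β < 1 ∧ 0 < γ ∧ γ * L < 2 * (1 + β) ∧
    (∃ f x, InClass μ L f ∧ IsCycle γ β f 5 x ∧ ∀ i < 5, ∀ j < 5, x i = x j → i = j) ∧
    ∀ f x, InClass μ L f → IsCycle γ β f 5 x → ¬ Ordered 5 x := by
  refine ⟨16 / 5, 37 / 10, 1, 9 / 10, by norm_num, by norm_num, by norm_num, by norm_num,
    by norm_num, by norm_num, ⟨f, star5, ⟨f_diff, f_strong, f_lip⟩, ⟨star5_per,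
      ⟨0, 1, fun h => absurd (star5_inj 0 (by norm_num) 1 (by norm_num) h) (by norm_num)⟩,
      star5_rec⟩, star5_inj⟩, ?_⟩
  rintro F x ⟨h1, h2, -⟩ ⟨h3, ⟨i, j, h4⟩, h5⟩ h6
  exact h4 (no_ordered h1 h2 (by norm_num) h3 h5 h6 i j)

end Pool.Agent.Results.MP_8c4df5_an.StarCycle
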